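import Mathlib

set_option autoImplicit false

namespace Pool.Agent.Results.MP_0ac583_co.Counter

open Finset

/-- `D` has a (not necessarily induced) subdigraph isomorphic to `H`. -/
def Contains {W V : Type} (H : W → W → Prop) (D : V → V → Prop) : Prop :=
  ∃ f : W → V, Function.Injective f ∧ ∀ a b, H a b → D (f a) (f b)

/-- Every loopless `H`-free digraph on `n` vertices with minimum out-degree at least `d n` has an
underlying graph of chromatic number at most `k`. -/
def Good {W : Type} (H : W → W → Prop) (d : ℝ) (k : ℕ) : Prop :=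
  ∀ (n : ℕ) (D : Fin n → Fin n → Prop), (∀ a, ¬ D a a) → ¬ Contains H D →
    (∀ v, d * n ≤ ({w | D v w}.ncard : ℝ)) → (SimpleGraph.fromRel D).Colorable k

/-- The chromatic profile. -/
noncomputable def profile {W : Type} (H : W → W → Prop) (k : ℕ) : EReal :=
  sInf {x : EReal | ∃ d : ℝ, x = d ∧ Good H d k}

/-- The directed chromatic threshold. -/
noncomputable def threshold {W : Type} (H : W → W → Prop) : EReal :=
  sInf {x : EReal | ∃ d : ℝ, x = d ∧ ∃ C : ℕ, Good H d C}

/-- `H` is an orientation of the simple graph `G`. -/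
def IsOrientation {W : Type} (G : SimpleGraph W) (H : W → W → Prop) : Prop :=
  ∀ a b, (G.Adj a b ↔ H a b ∨ H b a) ∧ ¬ (H a b ∧ H b a)

abbrev WW : Type := Fin 4 ⊕ (Fin 10 ⊕ Fin 2)

def H1 : WW → WW → Prop
  | .inl i, .inl j => j = i + 1
  | .inl i, .inr (.inl _) => i = 0
  | .inr (.inr _), .inl j => j = 0
  | _, _ => False

def H2 : WW → WW → Prop
  | .inl i, .inl j => (i = 0 ∨ i = 2) ∧ (j = 1 ∨ j = 3)
  | .inl i, .inr _ => i = 0
  | _, _ => False

theorem degen {V : Type} [Fintype V] [DecidableEq V] (G : SimpleGraph V) [DecidableRel G.Adj]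
    (K : ℕ) (hK : 0 < K)
    (h : ∀ S : Finset V, S.Nonempty → ∃ v ∈ S, (S.filter (G.Adj v)).card < K) : G.Colorable K := by
  have key : ∀ S : Finset V, ∃ c : V → Fin K, ∀ a ∈ S, ∀ b ∈ S, G.Adj a b → c a ≠ c b := by
    intro S
    induction S using Finset.strongInduction with
    | H S ih =>
      rcases S.eq_empty_or_nonempty with rfl | hS
      · exact ⟨fun _ => ⟨0, hK⟩, by simp⟩
      obtain ⟨v, hv, hlt⟩ := h S hS
      obtain ⟨c, hc⟩ := ih (S.erase v) (erase_ssubset hv)
      have : ((S.filter (G.Adj v)).image c).card < (univ : Finset (Fin K)).card := by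
        rw [card_univ, Fintype.card_fin]; exact lt_of_le_of_lt card_image_le hlt
      obtain ⟨x, -, hx⟩ := exists_mem_notMem_of_card_lt_card this
      refine ⟨Function.update c v x, fun a ha b hb hab => ?_⟩
      by_cases h1 : a = v
      · subst h1
        have h2 : b ≠ a := hab.ne'
        rw [Function.update_self, Function.update_of_ne h2]
        intro e; exact hx (mem_image.2 ⟨b, mem_filter.2 ⟨hb, hab⟩, e.symm⟩)
      · by_cases h2 : b = v
        · subst h2
          rw [Function.update_self, Function.update_of_ne h1]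
          intro e; exact hx (mem_image.2 ⟨a, mem_filter.2 ⟨ha, hab.symm⟩, e⟩)
        · rw [Function.update_of_ne h1, Function.update_of_ne h2]
          exact hc a (mem_erase.2 ⟨h1, ha⟩) b (mem_erase.2 ⟨h2, hb⟩) hab
  obtain ⟨c, hc⟩ := key univ
  exact ⟨SimpleGraph.Coloring.mk c fun {a b} hab => hc a (mem_univ _) b (mem_univ _) hab⟩

theorem emb {V : Type} [DecidableEq V] (c : Fin 4 → V) (hc : Function.Injective c)
    (A B : Finset V) (hA : A.card = 10) (hB : B.card = 2) (hAB : Disjoint A B)
    (hcA : ∀ i, c i ∉ A) (hcB : ∀ i, c i ∉ B) :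
    ∃ f : WW → V, Function.Injective f ∧ (∀ i, f (.inl i) = c i) ∧
      (∀ j, f (.inr (.inl j)) ∈ A) ∧ ∀ j, f (.inr (.inr j)) ∈ B := by
  let eA := (A.equivFinOfCardEq hA).symm
  let eB := (B.equivFinOfCardEq hB).symm
  refine ⟨Sum.elim c (Sum.elim (fun j => (eA j : V)) (fun j => (eB j : V))), ?_, fun _ => rfl,
    fun j => (eA j).2, fun j => (eB j).2⟩
  refine hc.sumElim (Function.Injective.sumElim ?_ ?_ ?_) ?_
  · exact Subtype.val_injective.comp eA.injective
  · exact Subtype.val_injective.comp eB.injective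
  · intro a b e
    exact disjoint_left.1 hAB (eA a).2 (e ▸ (eB b).2)
  · rintro a (b | b) e
    · exact hcA a (e ▸ (eA b).2)
    · exact hcB a (e ▸ (eB b).2)

section
variable {n : ℕ} (D : Fin n → Fin n → Prop) [DecidableRel D]

def outN (v : Fin n) : Finset (Fin n) := univ.filter (D v)
def inN (v : Fin n) : Finset (Fin n) := univ.filter (fun u => D u v)

theorem ncard_out (v : Fin n) : {w | D v w}.ncard = (outN D v).card := by
  rw [← Set.ncard_coe_finset]; congr 1; ext w; simp [outN]

theorem sum_in (S : Finset (Fin n)) :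
    ∑ v ∈ S, (S.filter (D v)).card = ∑ v ∈ S, (S.filter (fun u => D u v)).card := by
  simp only [card_filter]; exact sum_comm

theorem ex_in (hn : 0 < n) (δ : ℕ) (h : ∀ v, δ ≤ (outN D v).card) : ∃ v, δ ≤ (inN D v).card := by
  by_contra hc
  push Not at hc
  have h1 := sum_in D univ
  have h2 : ∑ v : Fin n, (inN D v).card < ∑ v : Fin n, (outN D v).card :=
    sum_lt_sum_of_nonempty ⟨⟨0, hn⟩, mem_univ _⟩ fun v _ => lt_of_lt_of_le (hc v) (h v)
  exact absurd h1.symm h2.ne

theorem find1 (hl : ∀ a, ¬ D a a) (δ : ℕ) (h : ∀ v, δ ≤ (outN D v).card) (h13 : 13 ≤ δ)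
    (v : Fin n) (hq : 5 ≤ (inN D v).card) (hq' : n + 2 ≤ δ + (inN D v).card)
    (hu : 15 ≤ (outN D v ∪ inN D v).card) : Contains H1 D := by
  obtain ⟨y, hy⟩ : (outN D v).Nonempty := card_pos.1 (by have := h v; omega)
  obtain ⟨z, hz, hzv⟩ : ∃ z ∈ outN D y, z ≠ v :=
    exists_mem_ne (by have := h y; omega) v
  have hint : 1 < (outN D z ∩ inN D v).card := by
    have h1 := card_union_add_card_inter (outN D z) (inN D v)
    have h2 : (outN D z ∪ inN D v).card ≤ n := by simpa using card_le_univ (outN D z ∪ inN D v)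
    have := h z; omega
  obtain ⟨w, hw, hwy⟩ := exists_mem_ne hint y
  simp only [outN, inN, mem_filter, mem_univ, true_and, mem_inter] at hy hz hw
  have hvy : v ≠ y := fun e => hl v (e ▸ hy)
  have hyz : y ≠ z := fun e => hl y (e ▸ hz)
  have hzw : z ≠ w := fun e => hl z (e ▸ hw.1)
  have hwv : w ≠ v := fun e => hl v (e ▸ hw.2)
  set T : Finset (Fin n) := {y, z, w} with hT
  have hT3 : T.card ≤ 3 := card_le_three
  set P := outN D v \ T with hP
  set Q := inN D v \ T with hQ
  have hPc : 10 ≤ P.card := by rw [hP]; have := le_card_sdiff T (outN D v); have := h v; omega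
  have hQc : 2 ≤ Q.card := by rw [hQ]; have := le_card_sdiff T (inN D v); omega
  have hU : 12 ≤ (P ∪ Q).card := by
    rw [hP, hQ, ← union_sdiff_distrib]; have := le_card_sdiff T (outN D v ∪ inN D v); omega
  obtain ⟨B, hBQ, hB, hPB⟩ : ∃ B ⊆ Q, B.card = 2 ∧ 10 ≤ (P \ B).card := by
    by_cases h2 : 2 ≤ (Q \ P).card
    · obtain ⟨B, hB, hB2⟩ := exists_subset_card_eq h2
      refine ⟨B, hB.trans sdiff_subset, hB2, ?_⟩
      rw [sdiff_eq_self_of_disjoint]; exact hPc
      exact disjoint_left.2 fun a ha hb => (mem_sdiff.1 (hB hb)).2 ha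
    · obtain ⟨B, hB1, hB2, hB3⟩ := exists_subsuperset_card_eq (sdiff_subset : Q \ P ⊆ Q)
        (by omega : (Q \ P).card ≤ 2) hQc
      refine ⟨B, hB2, hB3, ?_⟩
      have : (P ∪ Q) \ B ⊆ P \ B := fun a ha => by
        simp only [mem_sdiff, mem_union] at ha ⊢
        refine ⟨?_, ha.2⟩
        by_contra hp
        exact ha.2 (hB1 (mem_sdiff.2 ⟨ha.1.resolve_left hp, hp⟩))
      have h3 := card_le_card this
      have := le_card_sdiff B (P ∪ Q); omega
  obtain ⟨A, hA, hA10⟩ := exists_subset_card_eq hPB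
  have hAP : ∀ a ∈ A, D v a ∧ a ∉ T := fun a ha => by
    have := (mem_sdiff.1 (hA ha)).1
    simpa [hP, outN] using this
  have hBQ' : ∀ a ∈ B, D a v ∧ a ∉ T := fun a ha => by
    have := hBQ ha
    simpa [hQ, inN] using this
  obtain ⟨f, hf, h1, h2, h3⟩ := emb ![v, y, z, w]
    (by
      intro i j
      fin_cases i <;> fin_cases j <;> simp [hvy, hyz, hzw, hwv, hzv, hwy, hvy.symm, hyz.symm,
        hzw.symm, hwv.symm, hzv.symm, hwy.symm])
    A B hA10 hB (disjoint_left.2 fun a ha hb => (mem_sdiff.1 (hA ha)).2 hb)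
    (by
      intro i hi
      have := hAP _ hi
      fin_cases i
      · exact hl _ this.1
      all_goals exact this.2 (by simp [hT]))
    (by
      intro i hi
      have := hBQ' _ hi
      fin_cases i
      · exact hl _ this.1
      all_goals exact this.2 (by simp [hT]))
  refine ⟨f, hf, ?_⟩
  rintro (i | j | j) (i' | j' | j') hH <;> simp only [H1] at hH
  · subst hH; rw [h1, h1]; fin_cases i
    · exact hy
    · exact hz
    · exact hw.1
    · exact hw.2
  · subst hH; rw [h1]; exact (hAP _ (h2 j')).1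
  · subst hH; rw [h1]; exact (hBQ' _ (h3 j)).1

end

theorem good1 : Good H1 (25 / 32) 15 := by
  classical
  intro n D hl hf hd
  simp only [ncard_out] at hd
  by_cases h15 : n ≤ 15
  · exact ((SimpleGraph.fromRel D).colorable_of_fintype).mono (by simpa using h15)
  by_cases h18 : 18 ≤ n
  · exfalso
    obtain ⟨δ, hδ, h1, h2⟩ : ∃ δ : ℕ, (∀ v, δ ≤ (outN D v).card) ∧ 15 ≤ δ ∧ n + 2 ≤ δ + δ := by
      refine ⟨(25 * n + 31) / 32, fun v => ?_, by omega, by omega⟩
      have := hd v
      have h3 : (25 * n : ℝ) ≤ 32 * (outN D v).card := by linarith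
      have h4 : 25 * n ≤ 32 * (outN D v).card := by exact_mod_cast h3
      omega
    obtain ⟨v, hv⟩ := ex_in D (by omega) δ hδ
    refine hf (find1 D hl δ hδ (by omega) v (by omega) (by omega) ?_)
    have := card_le_card (subset_union_left : outN D v ⊆ outN D v ∪ inN D v)
    have := hδ v; omega
  have hδ : ∀ v, 13 ≤ (outN D v).card := fun v => by
    have := hd v
    have h3 : (25 * n : ℝ) ≤ 32 * (outN D v).card := by linarith
    have h4 : 25 * n ≤ 32 * (outN D v).card := by exact_mod_cast h3
    omega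
  refine degen _ 15 (by norm_num) fun S hS => ?_
  have hsub : ∀ v, S.filter ((SimpleGraph.fromRel D).Adj v) ⊆
      S.filter (D v) ∪ S.filter (fun u => D u v) := fun v a ha => by
    simp only [mem_filter, mem_union, SimpleGraph.fromRel_adj] at ha ⊢
    tauto
  by_cases hx : ∃ v ∈ S, 6 ≤ (inN D v).card
  · obtain ⟨v, hv, h6⟩ := hx
    refine ⟨v, hv, ?_⟩
    by_contra hc
    refine hf (find1 D hl 13 hδ le_rfl v (by omega) (by omega) ?_)
    refine le_trans (not_lt.1 hc) (card_le_card ((hsub v).trans (union_subset_union ?_ ?_)))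
    · exact filter_subset_filter _ (subset_univ _)
    · exact filter_subset_filter _ (subset_univ _)
  · push Not at hx
    by_contra hc
    push Not at hc
    have h1 : ∑ v ∈ S, 15 ≤ ∑ v ∈ S, ((S.filter (D v)).card + (S.filter (fun u => D u v)).card) :=
      sum_le_sum fun v hv => (hc v hv).trans ((card_le_card (hsub v)).trans (card_union_le _ _))
    have h2 : ∑ v ∈ S, (S.filter (fun u => D u v)).card ≤ ∑ v ∈ S, 5 :=
      sum_le_sum fun v hv => by
        have := card_le_card (filter_subset_filter (fun u => D u v) (subset_univ S))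
        have := hx v hv
        unfold inN at this; omega
    rw [sum_add_distrib, sum_in] at h1
    simp only [sum_const, smul_eq_mul] at h1 h2
    have := card_pos.2 hS
    omega

theorem good2 : Good H2 (1 / 4) 60 := by
  classical
  intro n D hl hf hd
  simp only [ncard_out] at hd
  by_cases h60 : n ≤ 60
  · exact ((SimpleGraph.fromRel D).colorable_of_fintype).mono (by simpa using h60)
  exfalso
  obtain ⟨δ, hδ, h1, h2⟩ : ∃ δ : ℕ, (∀ v, δ ≤ (outN D v).card) ∧ 15 ≤ δ ∧ n ≤ 4 * δ := by
    refine ⟨(n + 3) / 4, fun v => ?_, by omega, by omega⟩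
    have := hd v
    have h3 : (n : ℝ) ≤ 4 * (outN D v).card := by linarith
    have h4 : n ≤ 4 * (outN D v).card := by exact_mod_cast h3
    omega
  obtain ⟨x, hx⟩ := ex_in D (by omega) δ hδ
  obtain ⟨u, hu, u', hu', hne, y, hy⟩ : ∃ u ∈ inN D x, ∃ u' ∈ inN D x, u ≠ u' ∧
      ∃ y, y ∈ (outN D u).erase x ∧ y ∈ (outN D u').erase x := by
    by_contra hc
    push Not at hc
    have h3 := card_biUnion (s := inN D x) (t := fun u => (outN D u).erase x)
      (fun u hu u' hu' hne => disjoint_left.2 fun y hy => hc u hu u' hu' hne y hy)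
    have h4 : ((inN D x).biUnion fun u => (outN D u).erase x).card ≤ n := by
      simpa using card_le_univ ((inN D x).biUnion fun u => (outN D u).erase x)
    have h5 : ∑ u ∈ inN D x, (δ - 1) ≤ ∑ u ∈ inN D x, ((outN D u).erase x).card :=
      sum_le_sum fun u _ => by have := pred_card_le_card_erase (s := outN D u) (a := x); have := hδ u; omega
    simp only [sum_const, smul_eq_mul] at h5
    have h6 : δ * 14 ≤ (inN D x).card * (δ - 1) := Nat.mul_le_mul hx (by omega)
    omega
  simp only [outN, inN, mem_filter, mem_univ, true_and, mem_erase] at hu hu' hy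
  obtain ⟨⟨hyx, hy1⟩, -, hy2⟩ := hy
  have hux : u ≠ x := fun e => hl u (e ▸ hu)
  have huy : u ≠ y := fun e => hl u (e ▸ hy1)
  have hux' : u' ≠ x := fun e => hl u' (e ▸ hu')
  have huy' : u' ≠ y := fun e => hl u' (e ▸ hy2)
  set T : Finset (Fin n) := {x, u', y} with hT
  have hT3 : T.card ≤ 3 := card_le_three
  have hP : 12 ≤ (outN D u \ T).card := by have := le_card_sdiff T (outN D u); have := hδ u; omega
  obtain ⟨B, hB, hB2⟩ := exists_subset_card_eq (le_trans (by norm_num : 2 ≤ 12) hP)
  obtain ⟨A, hA, hA10⟩ := exists_subset_card_eq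
    (by have := le_card_sdiff B (outN D u \ T); omega : 10 ≤ ((outN D u \ T) \ B).card)
  have hAP : ∀ a ∈ A, D u a ∧ a ∉ T := fun a ha => by
    simpa [outN] using (mem_sdiff.1 (hA ha)).1
  have hBP : ∀ a ∈ B, D u a ∧ a ∉ T := fun a ha => by
    simpa [outN] using hB ha
  obtain ⟨f, hf', h3, h4, h5⟩ := emb ![u, x, u', y]
    (by
      intro i j
      fin_cases i <;> fin_cases j <;> simp [hux, huy, hux', huy', hne, hyx, hux.symm, huy.symm,
        hux'.symm, huy'.symm, hne.symm, hyx.symm])
    A B hA10 hB2 (disjoint_left.2 fun a ha hb => (mem_sdiff.1 (hA ha)).2 hb)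
    (by
      intro i hi
      have := hAP _ hi
      fin_cases i
      · exact hl _ this.1
      all_goals exact this.2 (by simp [hT]))
    (by
      intro i hi
      have := hBP _ hi
      fin_cases i
      · exact hl _ this.1
      all_goals exact this.2 (by simp [hT]))
  refine hf ⟨f, hf', ?_⟩
  rintro (i | j | j) (i' | j' | j') hH <;> simp only [H2] at hH
  · rw [h3, h3]
    obtain ⟨rfl | rfl, rfl | rfl⟩ := hH
    · exact hu
    · exact hy1
    · exact hu'
    · exact hy2
  · subst hH; rw [h3]; exact (hAP _ (h4 j')).1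
  · subst hH; rw [h3]; exact (hBP _ (h5 j')).1

theorem ivl {n : ℕ} (p : Fin n → Prop) (a m : ℕ) (ham : a + m ≤ n)
    (h : ∀ w : Fin n, a ≤ w.val → w.val < a + m → p w) : m ≤ {w | p w}.ncard := by
  have : (Set.univ : Set (Fin m)).ncard ≤ {w | p w}.ncard :=
    Set.ncard_le_ncard_of_injOn (fun j : Fin m => (⟨a + j.val, by omega⟩ : Fin n))
      (fun j _ => h _ (by simp) (by simp))
      (fun i _ j _ e => Fin.ext (by simpa using e))
  simpa using this

theorem bad1 (d : ℝ) (hd : d ≤ 3 / 10) (C : ℕ) : ¬ Good H1 d C := by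
  intro hg
  let t := C + 1
  let D : Fin (10 * t) → Fin (10 * t) → Prop := fun i j =>
    (i.val < j.val ∧ j.val < t) ∨ (i.val < t ∧ t ≤ j.val ∧ j.val < 4 * t) ∨
    (t ≤ i.val ∧ i.val < 4 * t ∧ 4 * t ≤ j.val ∧ j.val < 7 * t) ∨
    (4 * t ≤ i.val ∧ i.val < 7 * t ∧ 7 * t ≤ j.val) ∨ (7 * t ≤ i.val ∧ t ≤ j.val ∧ j.val < 4 * t)
  obtain ⟨c⟩ := hg (10 * t) D (fun a => by simp only [D]; omega)
    (by
      rintro ⟨f, -, hf⟩
      have h0 := hf (.inl 0) (.inl 1) rfl
      have h1 := hf (.inl 1) (.inl 2) rfl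
      have h2 := hf (.inl 2) (.inl 3) rfl
      have h3 := hf (.inl 3) (.inl 0) rfl
      simp only [D] at h0 h1 h2 h3
      omega)
    (by
      intro v
      have h3 : 3 * t ≤ {w | D v w}.ncard := by
        by_cases h1 : t ≤ v.val ∧ v.val < 4 * t
        · exact ivl _ (4 * t) _ (by omega) fun w _ _ => by simp only [D]; omega
        by_cases h2 : 4 * t ≤ v.val ∧ v.val < 7 * t
        · exact ivl _ (7 * t) _ (by omega) fun w _ _ => by simp only [D]; omega
        · exact ivl _ t _ (by omega) fun w _ _ => by simp only [D]; omega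
      have h4 : ((3 * t : ℕ) : ℝ) ≤ ({w | D v w}.ncard : ℝ) := by exact_mod_cast h3
      have h5 : (0 : ℝ) ≤ t := Nat.cast_nonneg _
      push_cast at h4 ⊢
      nlinarith)
  have hinj : Function.Injective fun i : Fin t => c (⟨i.val, by omega⟩ : Fin (10 * t)) := by
    intro i j e
    by_contra hne
    refine c.valid ?_ e
    have : i.val ≠ j.val := fun e => hne (Fin.ext e)
    rw [SimpleGraph.fromRel_adj]
    refine ⟨fun e => this (by simpa using e), ?_⟩
    have := i.2; have := j.2
    simp only [D]; omega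
  have := Fintype.card_le_of_injective _ hinj
  simp [t] at this

def D2 (i j : Fin 16) : Prop := j ≠ i ∧ j ≠ i + 14 ∧ j ≠ i + 15

instance : DecidableRel D2 := fun _ _ => by unfold D2; infer_instance

theorem bad2 (d : ℝ) (hd : d ≤ 13 / 16) : ¬ Good H2 d 15 := by
  intro hg
  have hout : ∀ v, (outN D2 v).card = 13 := by decide
  obtain ⟨c⟩ := hg 16 D2 (fun a h => h.1 rfl)
    (by
      rintro ⟨f, hi, hf⟩
      have : (univ.filter fun a : WW => a ≠ .inl 0 ∧ a ≠ .inl 2).card ≤ (outN D2 (f (.inl 0))).card := by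
        refine card_le_card_of_injOn f (fun a ha => ?_) hi.injOn
        simp only [coe_filter, mem_univ, true_and, Set.mem_ofPred_eq, outN] at ha ⊢
        refine hf _ _ ?_
        rcases a with i | j
        · fin_cases i <;> simp_all [H2]
        · simp [H2]
      rw [hout] at this
      exact absurd this (by decide))
    (by
      intro v
      rw [ncard_out, hout]
      push_cast; linarith)
  have hinj : Function.Injective c := by
    intro i j e
    by_contra hne
    refine c.valid ?_ e
    rw [SimpleGraph.fromRel_adj]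
    refine ⟨hne, ?_⟩
    have : ∀ i j : Fin 16, i ≠ j → D2 i j ∨ D2 j i := by decide
    exact this i j hne
  have := Fintype.card_le_of_injective _ hinj
  simp at this

instance : DecidableRel H1 := fun a b => by
  rcases a with i | j | j <;> rcases b with i' | j' | j' <;> simp only [H1] <;> infer_instance

instance : DecidableRel H2 := fun a b => by
  rcases a with i | j | j <;> rcases b with i' | j' | j' <;> simp only [H2] <;> infer_instance

/-- There are a connected finite graph `G`, two orientations `H₁, H₂` of `G` and `k ≥ 2` such that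
`H₁` has the larger directed chromatic threshold but the smaller chromatic profile at `k`. -/
theorem result : ∃ (W : Type) (_ : Fintype W) (G : SimpleGraph W) (H₁ H₂ : W → W → Prop),
    G.Connected ∧ IsOrientation G H₁ ∧ IsOrientation G H₂ ∧ threshold H₂ < threshold H₁ ∧
      ∃ k : ℕ, 2 ≤ k ∧ profile H₁ k < profile H₂ k := by
  refine ⟨WW, inferInstance, SimpleGraph.fromRel H1, H1, H2, ?_, ?_, ?_, ?_, 15, by norm_num, ?_⟩
  · have h0 : ∀ a : WW, a ≠ .inl 0 → a ≠ .inl 2 → (SimpleGraph.fromRel H1).Adj (.inl 0) a := by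
      simp only [SimpleGraph.fromRel_adj]; decide
    have h1 : ∀ a : WW, (SimpleGraph.fromRel H1).Reachable (.inl 0) a := by
      intro a
      by_cases e0 : a = .inl 0
      · rw [e0]
      by_cases e2 : a = .inl 2
      · rw [e2]
        refine (h0 (.inl 1) (by decide) (by decide)).reachable.trans (SimpleGraph.Adj.reachable ?_)
        rw [SimpleGraph.fromRel_adj]; decide
      · exact (h0 a e0 e2).reachable
    exact ⟨fun a b => (h1 a).symm.trans (h1 b)⟩
  · unfold IsOrientation; simp only [SimpleGraph.fromRel_adj]; decide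
  · unfold IsOrientation; simp only [SimpleGraph.fromRel_adj]; decide
  · refine lt_of_le_of_lt (sInf_le ⟨1 / 4, rfl, 60, good2⟩)
      (lt_of_lt_of_le (b := ((3 / 10 : ℝ) : EReal)) (EReal.coe_lt_coe_iff.2 (by norm_num)) ?_)
    refine le_sInf ?_
    rintro x ⟨d, rfl, C, hC⟩
    exact EReal.coe_le_coe_iff.2 (le_of_not_ge fun h => bad1 d h C hC)
  · refine lt_of_le_of_lt (sInf_le ⟨25 / 32, rfl, good1⟩)
      (lt_of_lt_of_le (b := ((13 / 16 : ℝ) : EReal)) (EReal.coe_lt_coe_iff.2 (by norm_num)) ?_)
    refine le_sInf ?_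
    rintro x ⟨d, rfl, hC⟩
    exact EReal.coe_le_coe_iff.2 (le_of_not_ge fun h => bad2 d h hC)

end Pool.Agent.Results.MP_0ac583_co.Counter
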